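import Pool.Agent.H170R2.PC.Primes

/-!
# Many semistable curves with `|Δ| ≥ N ^ κ`: Frey curves, `2 ≤ κ < 6`
-/

set_option autoImplicit false

namespace Pool.Agent.Q272.SS

open Finset Filter Topology

/-- the product of the primes dividing `Δ` -/
def conductor (W : WeierstrassCurve ℤ) : ℕ := ∏ p ∈ W.Δ.natAbs.primeFactors, p

/-- the curves with `N ≤ X` and `|Δ| ≥ N ^ κ` -/
def Large (κ X : ℝ) : Set (ℤ × ℤ) :=
  {q | ∃ W : WeierstrassCurve ℤ, W.Δ ≠ 0 ∧ IsCoprime W.c₄ W.Δ ∧ q = (W.c₄, W.c₆) ∧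
    (conductor W : ℝ) ≤ X ∧ (conductor W : ℝ) ^ κ ≤ |(W.Δ : ℝ)|}

/-- the Frey curve of `(A, B)`, `A = 4 s - 1`, `B = 16 t` -/
def frey (s t : ℤ) : WeierstrassCurve ℤ := ⟨1, 4 * t - s, 0, -((4 * s - 1) * t), 0⟩

theorem frey_c4 (s t : ℤ) : (frey s t).c₄ =
    (4 * s - 1) ^ 2 + (4 * s - 1) * (16 * t) + (16 * t) ^ 2 := by
  simp only [frey, WeierstrassCurve.c₄, WeierstrassCurve.b₂, WeierstrassCurve.b₄]
  ring

theorem frey_disc (s t : ℤ) : (frey s t).Δ =
    ((4 * s - 1) * t * (4 * s - 1 + 16 * t)) ^ 2 := by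
  simp only [frey, WeierstrassCurve.Δ, WeierstrassCurve.b₂, WeierstrassCurve.b₄,
    WeierstrassCurve.b₆, WeierstrassCurve.b₈]
  ring

theorem frey_coprime {s t : ℤ} (h : IsCoprime (4 * s - 1) (16 * t)) :
    IsCoprime (frey s t).c₄ (frey s t).Δ := by
  rw [frey_c4, frey_disc]
  set A := 4 * s - 1
  have h1 : IsCoprime (A ^ 2 + A * (16 * t) + (16 * t) ^ 2) A := by
    have : A ^ 2 + A * (16 * t) + (16 * t) ^ 2 = (16 * t) ^ 2 + A * (A + 16 * t) := by ring
    rw [this]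
    exact IsCoprime.add_mul_left_left (h.symm.pow_left) _
  have h2 : IsCoprime (A ^ 2 + A * (16 * t) + (16 * t) ^ 2) (16 * t) := by
    have : A ^ 2 + A * (16 * t) + (16 * t) ^ 2 = A ^ 2 + (16 * t) * (A + 16 * t) := by ring
    rw [this]
    exact IsCoprime.add_mul_left_left (h.pow_left) _
  have h3 : IsCoprime (A ^ 2 + A * (16 * t) + (16 * t) ^ 2) (A + 16 * t) := by
    have : A ^ 2 + A * (16 * t) + (16 * t) ^ 2 = -(A * (16 * t)) + (A + 16 * t) * (A + 16 * t) := by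
      ring
    rw [this]
    refine IsCoprime.add_mul_left_left ?_ _
    refine IsCoprime.neg_left (IsCoprime.mul_left ?_ ?_)
    · have h4 : IsCoprime A (16 * t + A * 1) := IsCoprime.add_mul_left_right h 1
      rwa [mul_one, add_comm] at h4
    · have h4 : IsCoprime (16 * t) (A + (16 * t) * 1) := IsCoprime.add_mul_left_right h.symm 1
      rwa [mul_one] at h4
  exact IsCoprime.pow_right (IsCoprime.mul_right (IsCoprime.mul_right h1
    (h2.of_isCoprime_of_dvd_right (Dvd.intro_left _ rfl))) h3)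

theorem rad_pos (n : ℕ) : 0 < ∏ p ∈ n.primeFactors, p :=
  prod_pos fun _ hp => (Nat.prime_of_mem_primeFactors hp).pos

/-- the curve of `A = 3 ^ k z`, `B = 2 ^ (i + 4) x` -/
theorem frey_curve {k i x z : ℕ} (hk : Odd k) (hz : z % 4 = 1) (hx : 0 < x)
    (h3x : ¬ 3 ∣ x) (hxz : Nat.Coprime x z) :
    ∃ W : WeierstrassCurve ℤ, W.Δ ≠ 0 ∧ IsCoprime W.c₄ W.Δ ∧
      W.c₄ = ((3 ^ k * z : ℕ) : ℤ) ^ 2 + ((3 ^ k * z : ℕ) : ℤ) * ((2 ^ (i + 4) * x : ℕ) : ℤ) +
        ((2 ^ (i + 4) * x : ℕ) : ℤ) ^ 2 ∧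
      W.Δ = (((3 ^ k * z) * (2 ^ i * x) * (3 ^ k * z + 2 ^ (i + 4) * x) : ℕ) : ℤ) ^ 2 ∧
      conductor W ≤ 6 * (x * z * (3 ^ k * z + 2 ^ (i + 4) * x)) := by
  obtain ⟨m, hm⟩ := hk
  have h3k : 3 ^ k % 4 = 3 := by
    rw [hm, pow_succ, pow_mul]
    norm_num [Nat.mul_mod, Nat.pow_mod]
  have hA4 : (3 ^ k * z) % 4 = 3 := by
    rw [Nat.mul_mod, h3k, hz]
  obtain ⟨s, hs⟩ : ∃ s : ℕ, 3 ^ k * z + 1 = 4 * s := ⟨(3 ^ k * z + 1) / 4, by omega⟩
  have hz0 : 0 < z := by omega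
  have e1 : (4 * (s : ℤ) - 1) = ((3 ^ k * z : ℕ) : ℤ) := by
    have : ((3 ^ k * z + 1 : ℕ) : ℤ) = ((4 * s : ℕ) : ℤ) := by rw [hs]
    push_cast at this ⊢
    linarith
  have e2 : (16 * ((2 ^ i * x : ℕ) : ℤ)) = ((2 ^ (i + 4) * x : ℕ) : ℤ) := by
    push_cast; ring
  have hcop : IsCoprime ((3 ^ k * z : ℕ) : ℤ) ((2 ^ (i + 4) * x : ℕ) : ℤ) := by
    rw [Nat.isCoprime_iff_coprime]
    have c1 : Nat.Coprime (3 ^ k) (2 ^ (i + 4) * x) := by
      refine Nat.Coprime.pow_left _ (Nat.Coprime.mul_right (Nat.Coprime.pow_right _ (by norm_num)) ?_)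
      exact (Nat.Prime.coprime_iff_not_dvd Nat.prime_three).mpr h3x
    have c2 : Nat.Coprime z (2 ^ (i + 4) * x) := by
      refine Nat.Coprime.mul_right (Nat.Coprime.pow_right _ ?_) hxz.symm
      exact (Nat.coprime_two_right.mpr (Nat.odd_iff.mpr (by omega)))
    exact Nat.Coprime.mul_left c1 c2
  have hΔ : (frey s ((2 ^ i * x : ℕ) : ℤ)).Δ =
      (((3 ^ k * z) * (2 ^ i * x) * (3 ^ k * z + 2 ^ (i + 4) * x) : ℕ) : ℤ) ^ 2 := by
    rw [frey_disc, e1, e2]
    push_cast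
    ring
  have hne : (3 ^ k * z) * (2 ^ i * x) * (3 ^ k * z + 2 ^ (i + 4) * x) ≠ 0 := by positivity
  refine ⟨frey s ((2 ^ i * x : ℕ) : ℤ), ?_, ?_, ?_, hΔ, ?_⟩
  · rw [hΔ]
    exact pow_ne_zero _ (by exact_mod_cast hne)
  · apply frey_coprime
    rw [e1, e2]
    exact hcop
  · rw [frey_c4, e1, e2]
  · unfold conductor
    rw [hΔ, Int.natAbs_pow, Int.natAbs_natCast, Nat.primeFactors_pow _ (by norm_num)]
    set S := 3 ^ k * z + 2 ^ (i + 4) * x with hS
    have hS0 : 0 < S := by positivity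
    have hsub : ((3 ^ k * z) * (2 ^ i * x) * S).primeFactors ⊆
        (6 * (x * z * S)).primeFactors := by
      intro p hp
      have hp' := Nat.prime_of_mem_primeFactors hp
      have hd := Nat.dvd_of_mem_primeFactors hp
      refine Nat.mem_primeFactors.mpr ⟨hp', ?_, by positivity⟩
      rcases hp'.dvd_mul.mp hd with h | h
      · rcases hp'.dvd_mul.mp h with h | h
        · rcases hp'.dvd_mul.mp h with h | h
          · have := hp'.dvd_of_dvd_pow h
            exact Dvd.dvd.mul_right (this.trans (by norm_num)) _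
          · exact Dvd.dvd.mul_left (Dvd.dvd.mul_right (Dvd.dvd.mul_left h _) _) _
        · rcases hp'.dvd_mul.mp h with h | h
          · have := hp'.dvd_of_dvd_pow h
            exact Dvd.dvd.mul_right (this.trans (by norm_num)) _
          · exact Dvd.dvd.mul_left (Dvd.dvd.mul_right (Dvd.dvd.mul_right h _) _) _
      · exact Dvd.dvd.mul_left (Dvd.dvd.mul_left h _) _
    calc ∏ p ∈ ((3 ^ k * z) * (2 ^ i * x) * S).primeFactors, p ≤
          ∏ p ∈ (6 * (x * z * S)).primeFactors, p :=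
          prod_le_prod_of_subset_of_one_le' hsub
            (fun p hp _ => (Nat.prime_of_mem_primeFactors hp).one_lt.le)
      _ ≤ 6 * (x * z * S) := Nat.le_of_dvd (by positivity) (Nat.prod_primeFactors_dvd _)

/-- `c₄` and `Δ` determine the odd and the even number -/
theorem pair_inj {A B A' B' : ℕ} (hA : 0 < A) (hB : 0 < B) (hA' : 0 < A') (hB' : 0 < B')
    (h4 : A ^ 2 + A * B + B ^ 2 = A' ^ 2 + A' * B' + B' ^ 2)
    (hP : A * B * (A + B) = A' * B' * (A' + B'))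
    (ho : Odd A) (ho' : Odd A') (he : Even B) (he' : Even B') : A = A' ∧ B = B' := by
  -- the sums are equal
  have key : ∀ A B A' B' : ℕ, 0 < A → 0 < B → 0 < A' → 0 < B' →
      A ^ 2 + A * B + B ^ 2 = A' ^ 2 + A' * B' + B' ^ 2 →
      A * B * (A + B) = A' * B' * (A' + B') → ¬ (A + B < A' + B') := by
    intro A B A' B' hA hB hA' hB' h4 hP hlt
    have e1 : A * B + (A ^ 2 + A * B + B ^ 2) = (A + B) ^ 2 := by ring
    have e2 : A' * B' + (A' ^ 2 + A' * B' + B' ^ 2) = (A' + B') ^ 2 := by ring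
    have h5 : (A + B) ^ 2 < (A' + B') ^ 2 := Nat.pow_lt_pow_left hlt (by norm_num)
    have h6 : A * B < A' * B' := by omega
    have h7 : A * B * (A + B) < A' * B' * (A' + B') := Nat.mul_lt_mul'' h6 hlt
    omega
  have hS : A + B = A' + B' := by
    have h1 := key A B A' B' hA hB hA' hB' h4 hP
    have h2 := key A' B' A B hA' hB' hA hB h4.symm hP.symm
    omega
  have hAB : A * B = A' * B' := by
    have h3 : 0 < A' + B' := by omega
    rw [hS] at hP
    exact Nat.eq_of_mul_eq_mul_right h3 hP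
  have h8 : ((A : ℤ) - A') * ((A : ℤ) - B') = 0 := by
    have g1 : (A : ℤ) + B = A' + B' := by exact_mod_cast hS
    have g2 : (A : ℤ) * B = A' * B' := by exact_mod_cast hAB
    have g3 : (B : ℤ) = A' + B' - A := by linarith
    rw [g3] at g2
    linear_combination -g2
  rcases mul_eq_zero.mp h8 with h | h
  · have h9 : A = A' := by
      have : (A : ℤ) = A' := by linarith
      exact_mod_cast this
    exact ⟨h9, by omega⟩
  · exfalso
    have h9 : A = B' := by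
      have : (A : ℤ) = B' := by linarith
      exact_mod_cast this
    rw [h9] at ho
    exact (Nat.not_even_iff_odd.mpr ho) he'

/-- `c₆²` from `c₄` and `Δ` -/
theorem c6_sq (W : WeierstrassCurve ℤ) : W.c₆ ^ 2 = W.c₄ ^ 3 - 1728 * W.Δ := by
  have := W.c_relation
  linarith

end Pool.Agent.Q272.SS
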