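import Pool.Agent.Q272.SS.Frey

/-!
# The count of the Frey curves
-/

set_option autoImplicit false

namespace Pool.Agent.Q272.SS

open Finset Filter Topology

theorem pow3_near {T : ℝ} (hT : 3 ≤ T) : ∃ k : ℕ, Odd k ∧ (3 : ℝ) ^ k ≤ T ∧ T < 9 * 3 ^ k := by
  obtain ⟨n, h1, h2⟩ := exists_nat_pow_near (x := T / 3) (y := 9) (by linarith) (by norm_num)
  refine ⟨2 * n + 1, ⟨n, rfl⟩, ?_, ?_⟩
  · have : (3 : ℝ) ^ (2 * n + 1) = 3 * 9 ^ n := by
      rw [pow_succ, pow_mul]; norm_num; ring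
    rw [this]; linarith
  · have : (9 : ℝ) * 3 ^ (2 * n + 1) = 3 * 9 ^ (n + 1) := by
      rw [pow_succ, pow_mul, pow_succ]; norm_num; ring
    rw [this]; linarith

theorem pow2_near {T : ℝ} (hT : 16 ≤ T) : ∃ i : ℕ, (2 : ℝ) ^ (i + 4) ≤ T ∧ T < 32 * 2 ^ i := by
  obtain ⟨n, h1, h2⟩ := exists_nat_pow_near (x := T / 16) (y := 2) (by linarith) (by norm_num)
  refine ⟨n, ?_, ?_⟩
  · rw [pow_add]; norm_num; linarith
  · rw [pow_succ] at h2; linarith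

/-- primes in `[Y, 2 Y)` -/
noncomputable def DP (Y : ℝ) : Finset ℕ :=
  (range (⌈2 * Y⌉₊ + 1)).filter (fun p => p.Prime ∧ Y ≤ p ∧ (p : ℝ) < 2 * Y)

theorem mem_DP {Y : ℝ} {p : ℕ} : p ∈ DP Y ↔ p.Prime ∧ Y ≤ p ∧ (p : ℝ) < 2 * Y := by
  unfold DP
  rw [mem_filter, mem_range]
  constructor
  · exact fun h => h.2
  · intro h
    refine ⟨?_, h⟩
    have : p < ⌈2 * Y⌉₊ := Nat.lt_ceil.2 h.2.2
    omega

theorem card_DP {η : ℝ} (hη : 0 < η) (hη1 : η ≤ 1) :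
    ∀ᶠ x : ℝ in atTop, x ^ (1 - η) ≤ ((DP x).card : ℝ) := by
  filter_upwards [Pool.Agent.H170R2.PC.dyadic_primes hη hη1] with x hx
  exact hx _ fun p h1 h2 h3 => mem_DP.2 ⟨h1, h2, h3⟩

/-- one step: the curves for given parameters -/
theorem frey_set {κ X Wp H Y T : ℝ} {k i M : ℕ} (hκ : 2 ≤ κ) (hY : 4 ≤ Y) (hH : 0 < H)
    (hk : Odd k) (h3 : (3 : ℝ) ^ k ≤ T) (h3' : T < 9 * 3 ^ k) (h2 : (2 : ℝ) ^ (i + 4) ≤ T)
    (h2' : T < 32 * 2 ^ i) (hTY : T * Y = H) (hW : Y ^ 2 * H = Wp) (hX : 36 * Wp = X)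
    (hbig : 6 ^ κ * (6 * Wp) ^ (κ - 2) ≤ (T ^ 2 / 288) ^ 2) (hM : 4 * (M : ℝ) ≤ Y) :
    ∃ U : Finset (ℤ × ℤ), (U : Set (ℤ × ℤ)) ⊆ Large κ X ∧ (DP Y).card * M = U.card := by
  classical
  have hT0 : 0 < T := lt_of_lt_of_le (by positivity) h3
  have hY0 : 0 < Y := by linarith
  -- the curve for `(x, z)`
  have hcurve : ∀ q ∈ DP Y ×ˢ range M, ∃ W : WeierstrassCurve ℤ, W.Δ ≠ 0 ∧ IsCoprime W.c₄ W.Δ ∧
      W.c₄ = ((3 ^ k * (4 * q.2 + 1) : ℕ) : ℤ) ^ 2 +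
        ((3 ^ k * (4 * q.2 + 1) : ℕ) : ℤ) * ((2 ^ (i + 4) * q.1 : ℕ) : ℤ) +
        ((2 ^ (i + 4) * q.1 : ℕ) : ℤ) ^ 2 ∧
      W.Δ = (((3 ^ k * (4 * q.2 + 1)) * (2 ^ i * q.1) *
        (3 ^ k * (4 * q.2 + 1) + 2 ^ (i + 4) * q.1) : ℕ) : ℤ) ^ 2 ∧
      (conductor W : ℝ) ≤ X ∧ (conductor W : ℝ) ^ κ ≤ |(W.Δ : ℝ)| := by
    rintro ⟨x, z'⟩ hq
    rw [mem_product, mem_DP, mem_range] at hq
    obtain ⟨⟨hx, hx1, hx2⟩, hz'⟩ := hq
    simp only at hx hx1 hx2 hz' ⊢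
    have hz1 : ((4 * z' + 1 : ℕ) : ℝ) < Y := by
      have : (z' : ℝ) + 1 ≤ M := by exact_mod_cast hz'
      push_cast
      linarith
    have hxz : 4 * z' + 1 < x := by
      have : ((4 * z' + 1 : ℕ) : ℝ) < x := lt_of_lt_of_le hz1 hx1
      exact_mod_cast this
    have hx4 : 4 ≤ x := by
      have : (4 : ℝ) ≤ x := hY.trans hx1
      exact_mod_cast this
    have h3x : ¬ 3 ∣ x := by
      intro h
      have := (Nat.prime_dvd_prime_iff_eq Nat.prime_three hx).mp h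
      omega
    have hcop : Nat.Coprime x (4 * z' + 1) := by
      rw [hx.coprime_iff_not_dvd]
      intro h
      exact absurd (Nat.le_of_dvd (by omega) h) (not_le.2 hxz)
    obtain ⟨W, w1, w2, w3, w4, w5⟩ := frey_curve (k := k) (i := i) hk (z := 4 * z' + 1)
      (by omega) hx.pos h3x hcop
    refine ⟨W, w1, w2, w3, w4, ?_⟩
    set z : ℕ := 4 * z' + 1 with hz
    set S : ℕ := 3 ^ k * z + 2 ^ (i + 4) * x with hS
    have hz0 : (1 : ℝ) ≤ z := by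
      rw [hz]; push_cast
      have : (0 : ℝ) ≤ z' := Nat.cast_nonneg _
      linarith
    have hx0 : (1 : ℝ) ≤ x := by linarith
    have hSle : (S : ℝ) ≤ 3 * H := by
      rw [hS]
      push_cast
      calc (3 : ℝ) ^ k * z + 2 ^ (i + 4) * x ≤ T * Y + T * (2 * Y) := by gcongr
        _ = 3 * H := by rw [← hTY]; ring
    have hS1 : (1 : ℝ) ≤ S := by
      have : 1 ≤ S := by
        rw [hS]
        have : 0 < 3 ^ k * z := by positivity
        omega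
      exact_mod_cast this
    set R : ℝ := (x : ℝ) * z * S with hR
    have hR1 : 1 ≤ R := by
      rw [hR]
      nlinarith [mul_nonneg (by linarith : (0 : ℝ) ≤ x - 1) (by linarith : (0 : ℝ) ≤ z - 1),
        one_le_mul_of_one_le_of_one_le (one_le_mul_of_one_le_of_one_le hx0 hz0) hS1]
    have hRle : R ≤ 6 * Wp := by
      rw [hR, ← hW]
      calc (x : ℝ) * z * S ≤ (2 * Y) * Y * (3 * H) := by gcongr
        _ = 6 * (Y ^ 2 * H) := by ring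
    have hcond : (conductor W : ℝ) ≤ 6 * R := by
      have : ((conductor W : ℕ) : ℝ) ≤ ((6 * (x * z * S) : ℕ) : ℝ) := by exact_mod_cast w5
      push_cast at this
      rw [hR]
      exact this
    refine ⟨by linarith, ?_⟩
    have hR0 : 0 < R := by linarith
    have hprod : T ^ 2 / 288 ≤ (3 : ℝ) ^ k * 2 ^ i := by
      have e1 : T / 9 ≤ (3 : ℝ) ^ k := by linarith
      have e2 : T / 32 ≤ (2 : ℝ) ^ i := by linarith
      calc T ^ 2 / 288 = (T / 9) * (T / 32) := by ring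
        _ ≤ _ := by gcongr
    have hΔ : |(W.Δ : ℝ)| = ((3 : ℝ) ^ k * 2 ^ i) ^ 2 * R ^ 2 := by
      rw [w4]
      push_cast
      rw [abs_of_nonneg (by positivity), hR]
      ring
    rw [hΔ]
    calc (conductor W : ℝ) ^ κ ≤ (6 * R) ^ κ := by
          have : (0 : ℝ) ≤ conductor W := Nat.cast_nonneg _
          gcongr
      _ = 6 ^ κ * R ^ (κ - 2) * R ^ 2 := by
          rw [Real.mul_rpow (by norm_num) hR0.le, mul_assoc, ← Real.rpow_natCast R 2,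
            ← Real.rpow_add hR0]
          congr 2
          push_cast
          ring
      _ ≤ 6 ^ κ * (6 * Wp) ^ (κ - 2) * R ^ 2 := by
          have : 0 ≤ κ - 2 := by linarith
          gcongr
      _ ≤ (T ^ 2 / 288) ^ 2 * R ^ 2 := by gcongr
      _ ≤ _ := by gcongr
  choose! F hF using hcurve
  refine ⟨(DP Y ×ˢ range M).image (fun q => ((F q).c₄, (F q).c₆)), ?_, ?_⟩
  · intro c hc
    rw [mem_coe, mem_image] at hc
    obtain ⟨q, hq, rfl⟩ := hc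
    obtain ⟨f1, f2, f3, f4, f5, f6⟩ := hF q hq
    exact ⟨F q, f1, f2, rfl, f5, f6⟩
  · rw [card_image_of_injOn, card_product, card_range]
    intro q hq q' hq' h
    rw [mem_coe] at hq hq'
    obtain ⟨f1, f2, f3, f4, f5, f6⟩ := hF q hq
    obtain ⟨g1, g2, g3, g4, g5, g6⟩ := hF q' hq'
    simp only [Prod.mk.injEq] at h
    obtain ⟨h4, h6⟩ := h
    have hΔ : (F q).Δ = (F q').Δ := by
      have e1 := c6_sq (F q)
      have e2 := c6_sq (F q')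
      rw [h4, h6, e2] at e1
      linarith
    rw [f3, g3] at h4
    rw [f4, g4] at hΔ
    have hx := (mem_DP.mp (mem_product.mp hq).1).1
    have hx' := (mem_DP.mp (mem_product.mp hq').1).1
    have hP := (sq_eq_sq₀ (Int.natCast_nonneg _) (Int.natCast_nonneg _)).mp hΔ
    have hP' : (3 ^ k * (4 * q.2 + 1)) * (2 ^ i * q.1) *
        (3 ^ k * (4 * q.2 + 1) + 2 ^ (i + 4) * q.1) = (3 ^ k * (4 * q'.2 + 1)) * (2 ^ i * q'.1) *
        (3 ^ k * (4 * q'.2 + 1) + 2 ^ (i + 4) * q'.1) := by exact_mod_cast hP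
    have h4' : (3 ^ k * (4 * q.2 + 1)) ^ 2 + (3 ^ k * (4 * q.2 + 1)) * (2 ^ (i + 4) * q.1) +
        (2 ^ (i + 4) * q.1) ^ 2 = (3 ^ k * (4 * q'.2 + 1)) ^ 2 +
        (3 ^ k * (4 * q'.2 + 1)) * (2 ^ (i + 4) * q'.1) + (2 ^ (i + 4) * q'.1) ^ 2 := by
      exact_mod_cast h4
    have h3odd : Odd (3 ^ k) := Odd.pow (by decide)
    have hodd : ∀ m : ℕ, Odd (3 ^ k * (4 * m + 1)) := fun m =>
      h3odd.mul ⟨2 * m, by ring⟩
    have heven : ∀ m : ℕ, Even (2 ^ (i + 4) * m) := fun m =>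
      (Even.pow_of_ne_zero (by decide) (by omega)).mul_right m
    have hx0 := hx.pos
    have hx0' := hx'.pos
    have hpow : 2 ^ (i + 4) = 2 ^ i * 16 := by rw [pow_add]; norm_num
    have := pair_inj (A := 3 ^ k * (4 * q.2 + 1)) (B := 2 ^ (i + 4) * q.1)
      (A' := 3 ^ k * (4 * q'.2 + 1)) (B' := 2 ^ (i + 4) * q'.1) (by positivity) (by positivity)
      (by positivity) (by positivity) h4' (by
        have e : ∀ a b c : ℕ, a * (2 ^ (i + 4) * b) * c = 16 * (a * (2 ^ i * b) * c) := by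
          intro a b c
          rw [hpow]; ring
        rw [e, e, hP']) (hodd _) (hodd _) (heven _) (heven _)
    obtain ⟨a1, a2⟩ := this
    have b1 : 4 * q.2 + 1 = 4 * q'.2 + 1 := Nat.eq_of_mul_eq_mul_left (by positivity) a1
    have b2 : q.1 = q'.1 := Nat.eq_of_mul_eq_mul_left (by positivity) a2
    exact Prod.ext b2 (by omega)

/-- **The lower bound for `2 ≤ κ < 6`.** -/
theorem count_frey {κ ε : ℝ} (h2 : 2 ≤ κ) (h6 : κ < 6) (hε : 0 < ε) :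
    ∀ᶠ X : ℝ in atTop, ∃ U : Finset (ℤ × ℤ), (U : Set (ℤ × ℤ)) ⊆ Large κ X ∧
      X ^ (1 - κ / 6 - ε) ≤ (U.card : ℝ) := by
  obtain ⟨κ', hκ'⟩ : ∃ κ' : ℝ, κ' = min (κ + 3 * ε) ((κ + 6) / 2) := ⟨_, rfl⟩
  have k1 : κ < κ' := by rw [hκ']; exact lt_min (by linarith) (by linarith)
  have k2 : κ' < 6 := by
    rw [hκ']; exact lt_of_le_of_lt (min_le_right _ _) (by linarith)
  have k3 : κ' ≤ κ + 3 * ε := by rw [hκ']; exact min_le_left _ _
  obtain ⟨η, hη⟩ : ∃ η : ℝ, η = min 1 (ε / 2) := ⟨_, rfl⟩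
  have hη0 : 0 < η := by rw [hη]; exact lt_min one_pos (by positivity)
  have hη1 : η ≤ 1 := by rw [hη]; exact min_le_left _ _
  have hηε : η ≤ ε / 2 := by rw [hη]; exact min_le_right _ _
  have hprime := card_DP hη0 hη1
  have tW : Tendsto (fun X : ℝ => X / 36) atTop atTop :=
    tendsto_id.atTop_div_const (by norm_num)
  have tY : Tendsto (fun X : ℝ => (X / 36) ^ ((1 - κ' / 6) / 2)) atTop atTop :=
    (tendsto_rpow_atTop (by linarith)).comp tW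
  have tT : Tendsto (fun X : ℝ => (X / 36) ^ (κ' / 4 - 1 / 2)) atTop atTop :=
    (tendsto_rpow_atTop (by linarith)).comp tW
  have tD : Tendsto (fun X : ℝ => (X / 36) ^ (κ' - κ)) atTop atTop :=
    (tendsto_rpow_atTop (by linarith)).comp tW
  have tE : Tendsto (fun X : ℝ => (X / 36) ^ (ε / 4)) atTop atTop :=
    (tendsto_rpow_atTop (by linarith)).comp tW
  filter_upwards [tY.eventually hprime, tY.eventually (eventually_ge_atTop 16),
    tT.eventually (eventually_ge_atTop 16),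
    tD.eventually (eventually_ge_atTop (288 ^ 2 * (6 ^ κ * 6 ^ (κ - 2)))),
    tE.eventually (eventually_ge_atTop (8 * 36)), eventually_ge_atTop 36] with X g1 g2 g3 g4 g5 g6
  obtain ⟨Wp, hWp⟩ : ∃ Wp : ℝ, Wp = X / 36 := ⟨_, rfl⟩
  rw [← hWp] at g1 g2 g3 g4 g5
  have hW1 : 1 ≤ Wp := by rw [hWp]; linarith
  have hW0 : 0 < Wp := by linarith
  obtain ⟨Y, hY⟩ : ∃ Y : ℝ, Y = Wp ^ ((1 - κ' / 6) / 2) := ⟨_, rfl⟩
  obtain ⟨T, hT⟩ : ∃ T : ℝ, T = Wp ^ (κ' / 4 - 1 / 2) := ⟨_, rfl⟩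
  rw [← hY] at g1 g2
  rw [← hT] at g3
  obtain ⟨k, hk, h3, h3'⟩ := pow3_near (T := T) (by linarith)
  obtain ⟨i, h2p, h2p'⟩ := pow2_near (T := T) g3
  obtain ⟨M, hM⟩ : ∃ M : ℕ, M = ⌊Y / 4⌋₊ := ⟨_, rfl⟩
  have hY0 : 0 < Y := by linarith
  have hM1 : 4 * (M : ℝ) ≤ Y := by
    have := Nat.floor_le (a := Y / 4) (by positivity)
    rw [← hM] at this
    linarith
  have hM2 : Y / 8 ≤ (M : ℝ) := by
    have := Nat.lt_floor_add_one (Y / 4)
    rw [← hM] at this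
    linarith
  have hTY : T * Y = Wp ^ (κ' / 6) := by
    rw [hT, hY, ← Real.rpow_add hW0]
    congr 1
    ring
  have hYH : Y ^ 2 * Wp ^ (κ' / 6) = Wp := by
    rw [hY, ← Real.rpow_natCast, ← Real.rpow_mul hW0.le, ← Real.rpow_add hW0]
    conv_rhs => rw [← Real.rpow_one Wp]
    congr 1
    push_cast
    ring
  have hbig : 6 ^ κ * (6 * Wp) ^ (κ - 2) ≤ (T ^ 2 / 288) ^ 2 := by
    rw [Real.mul_rpow (by norm_num) hW0.le]
    have e1 : (T ^ 2 / 288) ^ 2 = Wp ^ (κ' - κ) * Wp ^ (κ - 2) / 288 ^ 2 := by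
      rw [← Real.rpow_add hW0, hT]
      have : (((Wp ^ (κ' / 4 - 1 / 2)) ^ 2 / 288) ^ 2) =
          ((Wp ^ (κ' / 4 - 1 / 2)) ^ 4) / 288 ^ 2 := by ring
      rw [this, ← Real.rpow_natCast, ← Real.rpow_mul hW0.le]
      congr 2
      push_cast
      ring
    rw [e1, le_div_iff₀ (by norm_num)]
    have h5 : 0 < Wp ^ (κ - 2) := Real.rpow_pos_of_pos hW0 _
    calc 6 ^ κ * (6 ^ (κ - 2) * Wp ^ (κ - 2)) * 288 ^ 2 =
        288 ^ 2 * (6 ^ κ * 6 ^ (κ - 2)) * Wp ^ (κ - 2) := by ring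
      _ ≤ Wp ^ (κ' - κ) * Wp ^ (κ - 2) := by gcongr
  obtain ⟨U, hU1, hU2⟩ := frey_set (κ := κ) (X := X) (Wp := Wp) (H := Wp ^ (κ' / 6)) (Y := Y)
    (T := T) (k := k) (i := i) (M := M) h2 (by linarith) (Real.rpow_pos_of_pos hW0 _) hk h3 h3'
    h2p h2p' hTY hYH (by rw [hWp]; ring) hbig hM1
  refine ⟨U, hU1, ?_⟩
  rw [← hU2]
  push_cast
  have hc : Y ^ (1 - η) * (Y / 8) ≤ ((DP Y).card : ℝ) * M := by gcongr
  refine le_trans ?_ hc
  have e1 : Y ^ (1 - η) * (Y / 8) = Wp ^ ((1 - κ' / 6) * (1 - η / 2)) / 8 := by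
    have : Y ^ (1 - η) * (Y / 8) = Y ^ (1 - η) * Y ^ (1 : ℝ) / 8 := by
      rw [Real.rpow_one]; ring
    rw [this, ← Real.rpow_add hY0, hY, ← Real.rpow_mul hW0.le]
    congr 2
    ring
  rw [e1, le_div_iff₀ (by norm_num)]
  have hX36 : X = 36 * Wp := by rw [hWp]; ring
  have e2 : X ^ (1 - κ / 6 - ε) ≤ 36 * Wp ^ (1 - κ / 6 - ε) := by
    rw [hX36, Real.mul_rpow (by norm_num) hW0.le]
    have : (36 : ℝ) ^ (1 - κ / 6 - ε) ≤ 36 ^ (1 : ℝ) :=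
      Real.rpow_le_rpow_of_exponent_le (by norm_num) (by linarith)
    rw [Real.rpow_one] at this
    gcongr
  calc X ^ (1 - κ / 6 - ε) * 8 ≤ 36 * Wp ^ (1 - κ / 6 - ε) * 8 := by gcongr
    _ = Wp ^ (1 - κ / 6 - ε) * (8 * 36) := by ring
    _ ≤ Wp ^ (1 - κ / 6 - ε) * Wp ^ (ε / 4) := by gcongr
    _ = Wp ^ (1 - κ / 6 - ε + ε / 4) := by rw [← Real.rpow_add hW0]
    _ ≤ Wp ^ ((1 - κ' / 6) * (1 - η / 2)) := by
        refine Real.rpow_le_rpow_of_exponent_le hW1 ?_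
        have : 0 < 1 - κ' / 6 := by linarith
        have h8 : (1 - κ' / 6) * (η / 2) ≤ 1 * (η / 2) := by
          have : 0 < κ' := by linarith
          gcongr
          linarith
        nlinarith

end Pool.Agent.Q272.SS
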