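import Pool.Agent.Q272.SS.Frey
import Pool.Agent.H393R2.DC.Primes

/-!
# Many semistable curves with `|Δ| ≥ N ^ κ`: general curves, `1 ≤ κ < 2`
-/

set_option autoImplicit false

namespace Pool.Agent.Q272.SS

open Finset Filter Topology

/-- the curve `y² + x y = x³ + 5 m x + a` -/
def gen (m a : ℤ) : WeierstrassCurve ℤ := ⟨1, 0, 0, 5 * m, a⟩

theorem gen_c4 (m a : ℤ) : (gen m a).c₄ = 1 - 240 * m := by
  simp only [gen, WeierstrassCurve.c₄, WeierstrassCurve.b₂, WeierstrassCurve.b₄]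
  ring

theorem gen_c6 (m a : ℤ) : (gen m a).c₆ = -1 + 360 * m - 864 * a := by
  simp only [gen, WeierstrassCurve.c₆, WeierstrassCurve.b₂, WeierstrassCurve.b₄,
    WeierstrassCurve.b₆]
  ring

/-- square roots modulo powers of `5` -/
theorem sqrt5 (c : ℤ) (hc : (5 : ℤ) ∣ 1 - c) (i : ℕ) :
    ∃ r : ℤ, (5 : ℤ) ^ i ∣ r ^ 2 - c ∧ (5 : ℤ) ∣ r - 1 := by
  rcases Nat.eq_zero_or_pos i with h0 | h0
  · exact ⟨1, by rw [h0, pow_zero]; exact one_dvd _, by norm_num⟩
  · induction i, h0 using Nat.le_induction with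
    | base => exact ⟨1, by simpa using hc, by norm_num⟩
    | succ n hn ih =>
      obtain ⟨r, ⟨q, hq⟩, ⟨e, he⟩⟩ := ih
      obtain ⟨n', hn'⟩ : ∃ n', n = n' + 1 := ⟨n - 1, by omega⟩
      refine ⟨r + 5 ^ n * (-3 * q), ?_, ?_⟩
      · have h1 : (r + 5 ^ n * (-3 * q)) ^ 2 - c =
            5 ^ (n + 1) * (-q - 6 * e * q + 9 * 5 ^ n' * q ^ 2) := by
          have hr : r = 5 * e + 1 := by linarith
          have h2 : (5 : ℤ) ^ n = 5 * 5 ^ n' := by rw [hn', pow_succ]; ring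
          have h3 : (r + 5 ^ n * (-3 * q)) ^ 2 - c =
              5 ^ n * q - 6 * r * q * 5 ^ n + 9 * q ^ 2 * 5 ^ n * 5 ^ n := by
            linear_combination hq
          rw [h3, hr, pow_succ]
          nth_rewrite 4 [h2]
          ring
        rw [h1]
        exact Dvd.intro _ rfl
      · have : r + 5 ^ n * (-3 * q) - 1 = (r - 1) + 5 * (5 ^ n' * (-3 * q)) := by
          rw [hn', pow_succ]; ring
        rw [this, he]
        exact dvd_add (Dvd.intro _ rfl) (Dvd.intro _ rfl)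

/-- a residue class of `a` for which `5 ^ i` divides the discriminant -/
theorem class5 (m : ℤ) (i : ℕ) : ∃ a0 : ℕ, ∀ a : ℕ, a ≡ a0 [MOD 5 ^ i] →
    ((5 : ℤ) ^ i) ∣ (gen m a).Δ := by
  obtain ⟨r, hr, -⟩ := sqrt5 (1 - 240 * m) ⟨48 * m, by ring⟩ i
  have hcop : IsCoprime (864 : ℤ) ((5 : ℤ) ^ i) := by
    refine IsCoprime.pow_right ?_
    rw [Int.isCoprime_iff_gcd_eq_one]
    norm_num
  obtain ⟨x, y, hxy⟩ := hcop
  set b : ℤ := x * (-1 + 360 * m - r ^ 3) with hb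
  refine ⟨(b % 5 ^ i).toNat, fun a ha => ?_⟩
  have h5 : (0 : ℤ) < 5 ^ i := by positivity
  have h1 : ((b % 5 ^ i).toNat : ℤ) = b % 5 ^ i := Int.toNat_of_nonneg (Int.emod_nonneg _ h5.ne')
  have h2 : (a : ℤ) ≡ b [ZMOD 5 ^ i] := by
    have h3 : (a : ℤ) ≡ ((b % 5 ^ i).toNat : ℤ) [ZMOD ((5 ^ i : ℕ) : ℤ)] :=
      Int.natCast_modEq_iff.mpr ha
    rw [h1] at h3
    push_cast at h3
    exact h3.trans (Int.mod_modEq _ _)
  have h3 : (5 : ℤ) ^ i ∣ b - a := (Int.modEq_iff_dvd).mp h2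
  have h4 : (5 : ℤ) ^ i ∣ (gen m a).c₆ - r ^ 3 := by
    rw [gen_c6]
    have : -1 + 360 * m - 864 * (a : ℤ) - r ^ 3 =
        864 * (b - a) + 5 ^ i * (y * (-1 + 360 * m - r ^ 3)) := by
      rw [hb]
      linear_combination (-(-1 + 360 * m - r ^ 3)) * hxy
    rw [this]
    exact dvd_add (Dvd.dvd.mul_left h3 _) (Dvd.intro _ rfl)
  have h6 : (5 : ℤ) ^ i ∣ 1728 * (gen m a).Δ := by
    have hrel := (gen m a).c_relation
    rw [hrel]
    have e1 : (gen m a).c₄ ^ 3 - (gen m a).c₆ ^ 2 =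
        -((r ^ 2 - (gen m a).c₄) * (r ^ 4 + r ^ 2 * (gen m a).c₄ + (gen m a).c₄ ^ 2)) -
          ((gen m a).c₆ - r ^ 3) * ((gen m a).c₆ + r ^ 3) := by ring
    rw [e1]
    refine dvd_sub (Dvd.dvd.neg_right (Dvd.dvd.mul_right ?_ _)) (Dvd.dvd.mul_right h4 _)
    rw [gen_c4]
    exact hr
  have hcop2 : IsCoprime ((5 : ℤ) ^ i) (1728 : ℤ) := by
    refine IsCoprime.pow_left ?_
    rw [Int.isCoprime_iff_gcd_eq_one]
    norm_num
  exact hcop2.dvd_of_dvd_mul_left h6

theorem card_congr_le (S : Finset ℕ) (N Q : ℕ) (hS : S ⊆ range N)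
    (h : ∀ a ∈ S, ∀ b ∈ S, a ≡ b [MOD Q]) : S.card ≤ N / Q + 1 := by
  have h1 : Set.InjOn (fun k => k / Q) S := by
    intro k hk k' hk' hkk
    have h7 : k % Q = k' % Q := h k hk k' hk'
    have h8 : k / Q = k' / Q := hkk
    rw [← Nat.div_add_mod k Q, ← Nat.div_add_mod k' Q, h7, h8]
  have h2 : S.image (fun k => k / Q) ⊆ range (N / Q + 1) := by
    intro m hm
    obtain ⟨k, hk, rfl⟩ := mem_image.mp hm
    have h3 := mem_range.mp (hS hk)
    exact mem_range.mpr (Nat.lt_succ_of_le (Nat.div_le_div_right h3.le))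
  calc S.card = (S.image (fun k => k / Q)).card := (card_image_of_injOn h1).symm
    _ ≤ (range (N / Q + 1)).card := card_le_card h2
    _ = N / Q + 1 := card_range _

theorem card_congr_ge (N Q v : ℕ) (hQ : 0 < Q) :
    N / Q ≤ ((range N).filter (fun a => a ≡ v [MOD Q])).card := by
  have h := Nat.count_modEq_card N hQ v
  rw [Nat.count_eq_card_filter_range] at h
  rw [h]
  exact Nat.le_add_right _ _

open Classical in
/-- the good values of `a` -/
noncomputable def good (p m i N : ℕ) : Finset ℕ :=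
  (range N).filter (fun a => ((5 : ℤ) ^ i) ∣ (gen m a).Δ ∧ ¬ (p : ℤ) ∣ (gen m a).c₆)

theorem card_good {p m i N : ℕ} (hp : p.Prime) (hp5 : 5 < p) :
    N / 5 ^ i ≤ (good p m i N).card + (N / (5 ^ i * p) + 1) := by
  classical
  obtain ⟨a0, h0⟩ := class5 m i
  set S := (range N).filter (fun a => a ≡ a0 [MOD 5 ^ i]) with hS
  set B := S.filter (fun a : ℕ => (p : ℤ) ∣ (gen m a).c₆) with hB
  have h1 : N / 5 ^ i ≤ S.card := card_congr_ge N (5 ^ i) a0 (by positivity)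
  have h2 : S ⊆ good p m i N ∪ B := by
    intro a ha
    have ha' := mem_filter.mp ha
    by_cases hd : (p : ℤ) ∣ (gen m a).c₆
    · exact mem_union_right _ (mem_filter.mpr ⟨ha, hd⟩)
    · exact mem_union_left _ (mem_filter.mpr ⟨ha'.1, h0 a ha'.2, hd⟩)
  have h3 : B.card ≤ N / (5 ^ i * p) + 1 := by
    refine card_congr_le B N (5 ^ i * p) ((filter_subset _ _).trans (filter_subset _ _)) ?_
    intro a ha b hb
    obtain ⟨ha1, ha2⟩ := mem_filter.mp ha
    obtain ⟨hb1, hb2⟩ := mem_filter.mp hb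
    have hab : a ≡ b [MOD 5 ^ i] := (mem_filter.mp ha1).2.trans (mem_filter.mp hb1).2.symm
    have hpab : a ≡ b [MOD p] := by
      rw [← Int.natCast_modEq_iff, Int.modEq_iff_dvd]
      have e : (gen m a).c₆ - (gen m b).c₆ = 864 * ((b : ℤ) - a) := by
        rw [gen_c6, gen_c6]; ring
      have h4 : (p : ℤ) ∣ 864 * ((b : ℤ) - a) := by
        rw [← e]; exact dvd_sub ha2 hb2
      rcases (Nat.prime_iff_prime_int.mp hp).dvd_or_dvd h4 with h5 | h5
      · exfalso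
        have h6 : p ∣ 2 ^ 5 * 3 ^ 3 := by norm_num; exact_mod_cast h5
        rcases hp.dvd_mul.mp h6 with h7 | h7
        · have := Nat.le_of_dvd (by norm_num) (hp.dvd_of_dvd_pow h7)
          omega
        · have := Nat.le_of_dvd (by norm_num) (hp.dvd_of_dvd_pow h7)
          omega
      · exact h5
    have hcop : Nat.Coprime (5 ^ i) p := by
      refine Nat.Coprime.pow_left _ ?_
      exact (Nat.coprime_primes Nat.prime_five hp).mpr (by omega)
    exact (Nat.modEq_and_modEq_iff_modEq_mul hcop).mp ⟨hab, hpab⟩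
  calc N / 5 ^ i ≤ S.card := h1
    _ ≤ (good p m i N ∪ B).card := card_le_card h2
    _ ≤ (good p m i N).card + B.card := card_union_le _ _
    _ ≤ _ := by omega

/-- the curves -/
theorem gen_curve {p m i a N : ℕ} (hp : p.Prime) (hpm : p + 1 = 240 * m) (ha : a ∈ good p m i N) :
    (gen m a).Δ ≠ 0 ∧ IsCoprime (gen m a).c₄ (gen m a).Δ ∧
      1728 * |((gen m a).Δ : ℝ)| = (p : ℝ) ^ 3 + ((gen m a).c₆ : ℝ) ^ 2 ∧
      (conductor (gen m a) : ℝ) * 5 ^ i ≤ 5 * |((gen m a).Δ : ℝ)| := by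
  obtain ⟨ha1, h5, hpc⟩ := mem_filter.mp ha
  have hp5 : 5 < p := by omega
  have hc4 : (gen m a).c₄ = -(p : ℤ) := by
    rw [gen_c4]
    have : ((p + 1 : ℕ) : ℤ) = ((240 * m : ℕ) : ℤ) := by rw [hpm]
    push_cast at this
    linarith
  have hrel := (gen m a).c_relation
  rw [hc4] at hrel
  have hΔneg : (gen m a).Δ < 0 := by
    have h1 : (0 : ℤ) < (p : ℤ) ^ 3 := by
      have := hp.pos
      positivity
    nlinarith [sq_nonneg (gen m a).c₆]
  refine ⟨hΔneg.ne, ?_, ?_, ?_⟩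
  · rw [hc4]
    refine IsCoprime.neg_left ?_
    have hpp := Nat.prime_iff_prime_int.mp hp
    refine (Int.isCoprime_iff_gcd_eq_one.mpr ?_)
    have h1 : ¬ (p : ℤ) ∣ (gen m a).Δ := by
      intro h
      apply hpc
      refine hpp.dvd_of_dvd_pow (n := 2) ?_
      have e : (gen m a).c₆ ^ 2 = (-(p : ℤ)) ^ 3 - 1728 * (gen m a).Δ := by linarith
      rw [e]
      refine dvd_sub (dvd_pow (Dvd.dvd.neg_right dvd_rfl) (by norm_num)) (Dvd.dvd.mul_left h _)
    have h2 := (hpp.coprime_iff_not_dvd).mpr h1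
    exact Int.isCoprime_iff_gcd_eq_one.mp h2
  · rw [abs_of_neg (by exact_mod_cast hΔneg)]
    have : (1728 : ℝ) * (gen m a).Δ = (-(p : ℝ)) ^ 3 - ((gen m a).c₆ : ℝ) ^ 2 := by
      exact_mod_cast hrel
    linarith
  · obtain ⟨D1, hD1⟩ := h5
    have hD10 : D1 ≠ 0 := by
      rintro rfl
      rw [mul_zero] at hD1
      exact hΔneg.ne hD1
    have hnat : (gen m a).Δ.natAbs = 5 ^ i * D1.natAbs := by
      rw [hD1, Int.natAbs_mul, Int.natAbs_pow]
      rfl
    have hD1p : 0 < D1.natAbs := Int.natAbs_pos.mpr hD10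
    have h1 : conductor (gen m a) ≤ 5 * D1.natAbs := by
      unfold conductor
      have hsub : (gen m a).Δ.natAbs.primeFactors ⊆ (5 * D1.natAbs).primeFactors := by
        intro q hq
        have hq' := Nat.prime_of_mem_primeFactors hq
        have hd := Nat.dvd_of_mem_primeFactors hq
        rw [hnat] at hd
        refine Nat.mem_primeFactors.mpr ⟨hq', ?_, by positivity⟩
        rcases hq'.dvd_mul.mp hd with h | h
        · exact Dvd.dvd.mul_right (hq'.dvd_of_dvd_pow h) _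
        · exact Dvd.dvd.mul_left h _
      calc ∏ p ∈ (gen m a).Δ.natAbs.primeFactors, p ≤ ∏ p ∈ (5 * D1.natAbs).primeFactors, p :=
            prod_le_prod_of_subset_of_one_le' hsub
              (fun p hp _ => (Nat.prime_of_mem_primeFactors hp).one_lt.le)
        _ ≤ 5 * D1.natAbs := Nat.le_of_dvd (by positivity) (Nat.prod_primeFactors_dvd _)
    have h2 : |((gen m a).Δ : ℝ)| = 5 ^ i * (D1.natAbs : ℝ) := by
      have : (((gen m a).Δ.natAbs : ℕ) : ℝ) = ((5 ^ i * D1.natAbs : ℕ) : ℝ) := by rw [hnat]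
      rw [Nat.cast_natAbs, Int.cast_abs] at this
      rw [this]
      push_cast
      ring
    rw [h2]
    have h3 : (conductor (gen m a) : ℝ) ≤ 5 * (D1.natAbs : ℝ) := by exact_mod_cast h1
    calc (conductor (gen m a) : ℝ) * 5 ^ i ≤ (5 * (D1.natAbs : ℝ)) * 5 ^ i := by gcongr
      _ = _ := by ring

end Pool.Agent.Q272.SS
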