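import Pool.Agent.Q272.SS.Gen
import Pool.Agent.Q272.SS.FreyC

/-!
# The count of the general curves
-/

set_option autoImplicit false

namespace Pool.Agent.Q272.SS

open Finset Filter Topology

open Classical in
/-- primes `q ≤ N`, `q ≡ -1` modulo `240` -/
noncomputable def PS (N : ℕ) : Finset ℕ :=
  (range (N + 1)).filter (fun q : ℕ => q.Prime ∧ (q : ZMod 240) = -1)

theorem mem_PS {N q : ℕ} : q ∈ PS N ↔ q ≤ N ∧ q.Prime ∧ (q : ZMod 240) = -1 := by
  unfold PS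
  rw [mem_filter, mem_range]
  constructor
  · rintro ⟨h1, h2⟩; exact ⟨by omega, h2⟩
  · rintro ⟨h1, h2⟩; exact ⟨by omega, h2⟩

theorem PS_form {N q : ℕ} (h : q ∈ PS N) : q + 1 = 240 * ((q + 1) / 240) := by
  have h1 := (mem_PS.mp h).2.2
  have h2 : ((q + 1 : ℕ) : ZMod 240) = 0 := by
    push_cast
    rw [h1]; ring
  have h3 : 240 ∣ q + 1 := (ZMod.natCast_eq_zero_iff _ _).mp h2
  omega

theorem card_PS {η : ℝ} (hη : 0 < η) : ∀ᶠ x : ℝ in atTop, x ^ (1 - η) ≤ ((PS ⌊x⌋₊).card : ℝ) := by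
  classical
  obtain ⟨c, hc, N0, hN0⟩ := Pool.Agent.H393R2.DC.primes_lower 240 (-1) (isUnit_one.neg)
  have hlog := (isLittleO_log_rpow_atTop hη).bound (show (0 : ℝ) < c / 2 by positivity)
  filter_upwards [hlog, eventually_ge_atTop ((N0 : ℝ) + 3)] with x h1 h2
  have hN00 : (0 : ℝ) ≤ N0 := Nat.cast_nonneg _
  have hx0 : 0 < x := by linarith
  have hfl : (⌊x⌋₊ : ℝ) ≤ x := Nat.floor_le hx0.le
  have hfl2 : x / 2 ≤ (⌊x⌋₊ : ℝ) := by
    have := Nat.lt_floor_add_one x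
    linarith
  have hN : N0 ≤ ⌊x⌋₊ := Nat.le_floor (by linarith)
  have h3 := hN0 _ hN
  have hcard : (((range (⌊x⌋₊ + 1)).filter (fun q : ℕ => q.Prime ∧ (q : ZMod 240) = -1)).card : ℝ)
      = ((PS ⌊x⌋₊).card : ℝ) := by
    unfold PS
    congr 2
  rw [hcard] at h3
  refine le_trans ?_ h3
  have hlx : 0 < Real.log x := Real.log_pos (by linarith)
  have hlf : 0 < Real.log (⌊x⌋₊ : ℝ) := Real.log_pos (by linarith)
  have hlfx : Real.log (⌊x⌋₊ : ℝ) ≤ Real.log x := Real.log_le_log (by linarith) hfl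
  rw [Real.norm_of_nonneg hlx.le, Real.norm_of_nonneg (by positivity)] at h1
  have h4 : x ^ (1 - η) * Real.log x ≤ c * (x / 2) := by
    calc x ^ (1 - η) * Real.log x ≤ x ^ (1 - η) * (c / 2 * x ^ η) := by gcongr
      _ = c / 2 * (x ^ (1 - η) * x ^ η) := by ring
      _ = c / 2 * x := by
          rw [← Real.rpow_add hx0]
          norm_num
      _ = _ := by ring
  calc x ^ (1 - η) ≤ c * (x / 2) / Real.log x := by rwa [le_div_iff₀ hlx]
    _ ≤ c * (⌊x⌋₊ : ℝ) / Real.log (⌊x⌋₊ : ℝ) := by gcongr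

/-- the curves for given parameters -/
theorem gen_set {κ X h : ℝ} {i Np Na : ℕ} (hκ : 1 ≤ κ) (hh : 1 ≤ h)
    (hp3 : (Np : ℝ) ^ 3 ≤ h ^ 2) (hp1 : (Np : ℝ) ≤ h) (ha1 : (Na : ℝ) ≤ h)
    (hX : 2500 * h ^ 2 ≤ X * 5 ^ i)
    (hsz : (500 * h ^ 2) ^ (κ - 1) * (5 / 5 ^ i) ^ κ ≤ 1) (hbig : (5 : ℝ) * 5 ^ i ≤ Na) :
    ∃ U : Finset (ℤ × ℤ), (U : Set (ℤ × ℤ)) ⊆ Large κ X ∧
      ((PS Np).card : ℝ) * ((Na : ℝ) / 5 ^ i / 2) ≤ (U.card : ℝ) := by
  classical
  have h5 : (0 : ℝ) < 5 ^ i := by positivity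
  set m : ℕ → ℕ := fun q => (q + 1) / 240 with hm
  refine ⟨((PS Np).sigma (fun q => good q (m q) i Na)).image
    (fun x => ((gen (m x.1) x.2).c₄, (gen (m x.1) x.2).c₆)), ?_, ?_⟩
  · intro c hc
    rw [mem_coe, mem_image] at hc
    obtain ⟨⟨q, a⟩, hqa, rfl⟩ := hc
    rw [mem_sigma] at hqa
    obtain ⟨hq, ha⟩ := hqa
    simp only at hq ha ⊢
    have hform := PS_form hq
    obtain ⟨hqN, hqp, -⟩ := mem_PS.mp hq
    obtain ⟨c1, c2, c3, c4⟩ := gen_curve hqp hform ha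
    set W := gen (m q) a with hW
    have hqh : (q : ℝ) ≤ h := le_trans (by exact_mod_cast hqN) hp1
    have hq3 : (q : ℝ) ^ 3 ≤ h ^ 2 := le_trans (by gcongr) hp3
    have haN : a < Na := mem_range.mp (mem_filter.mp ha).1
    have hah : (a : ℝ) ≤ h := le_trans (by exact_mod_cast haN.le) ha1
    have hc6 : |(W.c₆ : ℝ)| ≤ 868 * h := by
      rw [hW, gen_c6]
      push_cast
      have e1 : (240 : ℝ) * (m q : ℝ) = q + 1 := by
        have : ((q + 1 : ℕ) : ℝ) = ((240 * m q : ℕ) : ℝ) := by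
          rw [hm]; exact_mod_cast hform
        push_cast at this
        linarith
      have hq0 : (0 : ℝ) ≤ q := Nat.cast_nonneg _
      have ha0 : (0 : ℝ) ≤ a := Nat.cast_nonneg _
      rw [abs_le]
      constructor <;> nlinarith
    have hΔ : |(W.Δ : ℝ)| ≤ 500 * h ^ 2 := by
      have e1 : ((W.c₆ : ℝ)) ^ 2 ≤ (868 * h) ^ 2 := by
        rw [← sq_abs]
        gcongr
      nlinarith
    have hΔ1 : (1 : ℝ) ≤ |(W.Δ : ℝ)| := by
      have := Int.one_le_abs c1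
      exact_mod_cast this
    have hcond : (conductor W : ℝ) ≤ 5 * |(W.Δ : ℝ)| / 5 ^ i := by
      rw [le_div_iff₀ h5]; exact c4
    refine ⟨W, c1, c2, rfl, ?_, ?_⟩
    · refine hcond.trans ?_
      rw [div_le_iff₀ h5]
      calc 5 * |(W.Δ : ℝ)| ≤ 5 * (500 * h ^ 2) := by gcongr
        _ = 2500 * h ^ 2 := by ring
        _ ≤ X * 5 ^ i := hX
    · have hΔ0 : (0 : ℝ) < |(W.Δ : ℝ)| := by linarith
      calc (conductor W : ℝ) ^ κ ≤ (5 * |(W.Δ : ℝ)| / 5 ^ i) ^ κ := by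
            have : (0 : ℝ) ≤ conductor W := Nat.cast_nonneg _
            gcongr
        _ = |(W.Δ : ℝ)| * (|(W.Δ : ℝ)| ^ (κ - 1) * (5 / 5 ^ i) ^ κ) := by
            have e1 : 5 * |(W.Δ : ℝ)| / 5 ^ i = |(W.Δ : ℝ)| * (5 / 5 ^ i) := by ring
            rw [e1, Real.mul_rpow hΔ0.le (by positivity)]
            have e2 : |(W.Δ : ℝ)| ^ κ = |(W.Δ : ℝ)| * |(W.Δ : ℝ)| ^ (κ - 1) := by
              nth_rewrite 2 [← Real.rpow_one |(W.Δ : ℝ)|]
              rw [← Real.rpow_add hΔ0]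
              congr 1
              ring
            rw [e2]
            ring
        _ ≤ |(W.Δ : ℝ)| * ((500 * h ^ 2) ^ (κ - 1) * (5 / 5 ^ i) ^ κ) := by
            have : 0 ≤ κ - 1 := by linarith
            gcongr
        _ ≤ |(W.Δ : ℝ)| * 1 := by gcongr
        _ = _ := mul_one _
  · rw [card_image_of_injOn, card_sigma]
    · push_cast
      rw [← nsmul_eq_mul, ← sum_const]
      refine sum_le_sum fun q hq => ?_
      have hform := PS_form hq
      obtain ⟨hqN, hqp, -⟩ := mem_PS.mp hq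
      have hq239 : 239 ≤ q := by
        have := hqp.two_le
        omega
      have h1 := card_good (p := q) (m := m q) (i := i) (N := Na) hqp (by omega)
      have h2 : ((Na / 5 ^ i : ℕ) : ℝ) ≤ ((good q (m q) i Na).card : ℝ) +
          (((Na / (5 ^ i * q) : ℕ) : ℝ) + 1) := by exact_mod_cast h1
      have h3 : (Na : ℝ) / 5 ^ i - 1 ≤ ((Na / 5 ^ i : ℕ) : ℝ) := by
        have := Nat.lt_floor_add_one ((Na : ℝ) / ((5 ^ i : ℕ) : ℝ))
        rw [Nat.floor_div_eq_div] at this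
        push_cast at this
        linarith
      have h4 : (((Na / (5 ^ i * q) : ℕ)) : ℝ) ≤ (Na : ℝ) / 5 ^ i / 239 := by
        calc (((Na / (5 ^ i * q) : ℕ)) : ℝ) ≤ (Na : ℝ) / ((5 ^ i * q : ℕ) : ℝ) := Nat.cast_div_le
          _ ≤ (Na : ℝ) / 5 ^ i / 239 := by
              push_cast
              rw [div_div]
              have : (239 : ℝ) ≤ q := by exact_mod_cast hq239
              gcongr
      have h6 : (5 : ℝ) ≤ (Na : ℝ) / 5 ^ i := by
        rw [le_div_iff₀ h5]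
        exact hbig
      linarith
    · rintro ⟨q, a⟩ hq ⟨q', a'⟩ hq' heq
      rw [mem_coe, mem_sigma] at hq hq'
      simp only [Prod.mk.injEq] at heq hq hq'
      have hf := PS_form hq.1
      have hf' := PS_form hq'.1
      rw [gen_c4, gen_c4, gen_c6, gen_c6] at heq
      obtain ⟨e1, e2⟩ := heq
      have e3 : (m q : ℤ) = m q' := by linarith
      have e4 : m q = m q' := by exact_mod_cast e3
      have e5 : q = q' := by
        simp only [hm] at e4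
        omega
      have e6 : (a : ℤ) = a' := by
        rw [e3] at e2
        linarith
      have e7 : a = a' := by exact_mod_cast e6
      subst e5
      subst e7
      rfl

theorem pow5_near {T : ℝ} (hT : 1 ≤ T) : ∃ i : ℕ, (5 : ℝ) ^ i ≤ T ∧ T < 5 * 5 ^ i := by
  obtain ⟨n, h1, h2⟩ := exists_nat_pow_near (x := T) (y := 5) hT (by norm_num)
  exact ⟨n, h1, by rw [pow_succ] at h2; linarith⟩

/-- **The lower bound for `1 ≤ κ < 2`.** -/
theorem count_gen {κ ε : ℝ} (h1 : 1 ≤ κ) (h2 : κ < 2) (hε : 0 < ε) :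
    ∀ᶠ X : ℝ in atTop, ∃ U : Finset (ℤ × ℤ), (U : Set (ℤ × ℤ)) ⊆ Large κ X ∧
      X ^ (1 - κ / 6 - ε) ≤ (U.card : ℝ) := by
  obtain ⟨κ', hκ'⟩ : ∃ κ' : ℝ, κ' = min (κ + 3 * ε) ((κ + 2) / 2) := ⟨_, rfl⟩
  have k1 : κ < κ' := by rw [hκ']; exact lt_min (by linarith) (by linarith)
  have k2 : κ' < 2 := by
    rw [hκ']; exact lt_of_le_of_lt (min_le_right _ _) (by linarith)
  have k3 : κ' ≤ κ + 3 * ε := by rw [hκ']; exact min_le_left _ _
  obtain ⟨η, hη⟩ : ∃ η : ℝ, η = min (1 / 2) (ε / 4) := ⟨_, rfl⟩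
  have hη0 : 0 < η := by rw [hη]; exact lt_min (by norm_num) (by positivity)
  have hη1 : η ≤ 1 / 2 := by rw [hη]; exact min_le_left _ _
  have hηε : η ≤ ε / 4 := by rw [hη]; exact min_le_right _ _
  have hprime := card_PS hη0
  have tW : Tendsto (fun X : ℝ => X / 12500) atTop atTop :=
    tendsto_id.atTop_div_const (by norm_num)
  have tP : Tendsto (fun X : ℝ => (X / 12500) ^ (κ' / 3)) atTop atTop :=
    (tendsto_rpow_atTop (by linarith)).comp tW
  have tG : Tendsto (fun X : ℝ => (X / 12500) ^ (1 - κ' / 2)) atTop atTop :=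
    (tendsto_rpow_atTop (by linarith)).comp tW
  have tD : Tendsto (fun X : ℝ => (X / 12500) ^ (κ' - κ)) atTop atTop :=
    (tendsto_rpow_atTop (by linarith)).comp tW
  have tE : Tendsto (fun X : ℝ => (X / 12500) ^ (ε / 4)) atTop atTop :=
    (tendsto_rpow_atTop (by linarith)).comp tW
  filter_upwards [tP.eventually hprime, tG.eventually (eventually_ge_atTop 10),
    tD.eventually (eventually_ge_atTop (500 ^ (κ - 1) * 25 ^ κ)),
    tE.eventually (eventually_ge_atTop (4 * 12500)), eventually_ge_atTop (2 * 12500)]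
    with X g1 g2 g4 g5 g6
  obtain ⟨Wp, hWp⟩ : ∃ Wp : ℝ, Wp = X / 12500 := ⟨_, rfl⟩
  rw [← hWp] at g1 g2 g4 g5
  have hW2 : 2 ≤ Wp := by rw [hWp]; linarith
  have hW1 : 1 ≤ Wp := by linarith
  have hW0 : 0 < Wp := by linarith
  obtain ⟨h, hh⟩ : ∃ h : ℝ, h = Wp ^ (κ' / 2) := ⟨_, rfl⟩
  obtain ⟨T, hT⟩ : ∃ T : ℝ, T = Wp ^ (κ' - 1) := ⟨_, rfl⟩
  have hh1 : 1 ≤ h := by rw [hh]; exact Real.one_le_rpow hW1 (by linarith)
  have hT1 : 1 ≤ T := by rw [hT]; exact Real.one_le_rpow hW1 (by linarith)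
  have hh2 : h ^ 2 = Wp ^ κ' := by
    rw [hh, ← Real.rpow_natCast, ← Real.rpow_mul hW0.le]
    congr 1
    push_cast
    ring
  have hTW : h ^ 2 = T * Wp := by
    rw [hh2, hT]
    nth_rewrite 3 [← Real.rpow_one Wp]
    rw [← Real.rpow_add hW0]
    congr 1
    ring
  have hhT : h = T * Wp ^ (1 - κ' / 2) := by
    rw [hh, hT, ← Real.rpow_add hW0]
    congr 1
    ring
  obtain ⟨i, hi1, hi2⟩ := pow5_near hT1
  have h5 : (0 : ℝ) < 5 ^ i := by positivity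
  obtain ⟨Np, hNp⟩ : ∃ Np : ℕ, Np = ⌊Wp ^ (κ' / 3)⌋₊ := ⟨_, rfl⟩
  obtain ⟨Na, hNa⟩ : ∃ Na : ℕ, Na = ⌊h⌋₊ := ⟨_, rfl⟩
  rw [← hNp] at g1
  have hNp1 : (Np : ℝ) ≤ Wp ^ (κ' / 3) := by rw [hNp]; exact Nat.floor_le (by positivity)
  have hNa1 : (Na : ℝ) ≤ h := by rw [hNa]; exact Nat.floor_le (by linarith)
  have hhbig : 10 ≤ h := by
    rw [hhT]
    nlinarith
  have hNa2 : h / 2 ≤ (Na : ℝ) := by
    have := Nat.lt_floor_add_one h
    rw [← hNa] at this
    linarith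
  have hNaT : Wp ^ (1 - κ' / 2) / 2 ≤ (Na : ℝ) / 5 ^ i := by
    rw [le_div_iff₀ h5]
    calc Wp ^ (1 - κ' / 2) / 2 * 5 ^ i ≤ Wp ^ (1 - κ' / 2) / 2 * T := by gcongr
      _ = h / 2 := by rw [hhT]; ring
      _ ≤ Na := hNa2
  obtain ⟨U, hU1, hU2⟩ := gen_set (κ := κ) (X := X) (h := h) (i := i) (Np := Np) (Na := Na) h1 hh1
    (by
      calc (Np : ℝ) ^ 3 ≤ (Wp ^ (κ' / 3)) ^ 3 := by gcongr
        _ = h ^ 2 := by
            rw [hh2, ← Real.rpow_natCast, ← Real.rpow_mul hW0.le]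
            congr 1
            push_cast
            ring)
    (hNp1.trans (by
      rw [hh]
      exact Real.rpow_le_rpow_of_exponent_le hW1 (by linarith))) hNa1
    (by
      have : X = 12500 * Wp := by rw [hWp]; ring
      rw [this, hTW]
      nlinarith)
    (by
      have e1 : (5 : ℝ) / 5 ^ i ≤ 25 / T := by
        rw [div_le_div_iff₀ h5 (by linarith)]
        linarith
      have hT0 : 0 < T := by linarith
      calc (500 * h ^ 2) ^ (κ - 1) * (5 / 5 ^ i) ^ κ ≤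
            (500 * h ^ 2) ^ (κ - 1) * (25 / T) ^ κ := by
              have : 0 ≤ κ := by linarith
              gcongr
        _ = (500 ^ (κ - 1) * 25 ^ κ) * (Wp ^ (κ' - κ))⁻¹ := by
            rw [Real.mul_rpow (by norm_num) (by positivity), Real.div_rpow (by norm_num) hT0.le,
              hh2, hT, ← Real.rpow_mul hW0.le, ← Real.rpow_mul hW0.le, ← Real.rpow_neg hW0.le,
              div_eq_mul_inv, ← Real.rpow_neg hW0.le]
            have e3 : Wp ^ (-(κ' - κ)) = Wp ^ (κ' * (κ - 1)) * Wp ^ (-((κ' - 1) * κ)) := by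
              rw [← Real.rpow_add hW0]
              congr 1
              ring
            rw [e3]
            ring
        _ ≤ Wp ^ (κ' - κ) * (Wp ^ (κ' - κ))⁻¹ := by gcongr
        _ = 1 := mul_inv_cancel₀ (Real.rpow_pos_of_pos hW0 _).ne')
    (by
      have : (5 : ℝ) ≤ (Na : ℝ) / 5 ^ i := le_trans (by linarith) hNaT
      rwa [le_div_iff₀ h5] at this)
  refine ⟨U, hU1, le_trans ?_ hU2⟩
  have hc : (Wp ^ (κ' / 3)) ^ (1 - η) * (Wp ^ (1 - κ' / 2) / 2 / 2) ≤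
      ((PS Np).card : ℝ) * ((Na : ℝ) / 5 ^ i / 2) := by gcongr
  refine le_trans ?_ hc
  have e1 : (Wp ^ (κ' / 3)) ^ (1 - η) * (Wp ^ (1 - κ' / 2) / 2 / 2) =
      Wp ^ (1 - κ' / 6 - κ' / 3 * η) / 4 := by
    rw [← Real.rpow_mul hW0.le]
    have : Wp ^ (κ' / 3 * (1 - η)) * (Wp ^ (1 - κ' / 2) / 2 / 2) =
        Wp ^ (κ' / 3 * (1 - η)) * Wp ^ (1 - κ' / 2) / 4 := by ring
    rw [this, ← Real.rpow_add hW0]
    congr 2
    ring
  rw [e1, le_div_iff₀ (by norm_num)]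
  have hX36 : X = 12500 * Wp := by rw [hWp]; ring
  have e2 : X ^ (1 - κ / 6 - ε) ≤ 12500 * Wp ^ (1 - κ / 6 - ε) := by
    rw [hX36, Real.mul_rpow (by norm_num) hW0.le]
    have : (12500 : ℝ) ^ (1 - κ / 6 - ε) ≤ 12500 ^ (1 : ℝ) :=
      Real.rpow_le_rpow_of_exponent_le (by norm_num) (by linarith)
    rw [Real.rpow_one] at this
    gcongr
  calc X ^ (1 - κ / 6 - ε) * 4 ≤ 12500 * Wp ^ (1 - κ / 6 - ε) * 4 := by gcongr
    _ = Wp ^ (1 - κ / 6 - ε) * (4 * 12500) := by ring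
    _ ≤ Wp ^ (1 - κ / 6 - ε) * Wp ^ (ε / 4) := by gcongr
    _ = Wp ^ (1 - κ / 6 - ε + ε / 4) := by rw [← Real.rpow_add hW0]
    _ ≤ Wp ^ (1 - κ' / 6 - κ' / 3 * η) := by
        refine Real.rpow_le_rpow_of_exponent_le hW1 ?_
        have h8 : κ' / 3 * η ≤ 1 * (ε / 4) := by
          have : 0 < κ' := by linarith
          gcongr
          linarith
        linarith

end Pool.Agent.Q272.SS
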